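import Mathlib
import Pool.Agent.Lib.helper12.NL

set_option autoImplicit false

open Pool.Agent.Lib.helper12.NL

namespace Pool.Agent.Results.MP_03cbb9_co.Full

/-- Edges of the Mycielski graph: `some (inl u)` is `u`, `some (inr u)` is `u'`, `none` is `w`. -/
def rel {V : Type} (G : SimpleGraph V) : Option (V ⊕ V) → Option (V ⊕ V) → Prop
  | some (.inl a), some (.inl b) => G.Adj a b
  | some (.inr a), some (.inl b) => G.Adj a b
  | none, some (.inr _) => True
  | _, _ => False

/-- The Mycielski graph. -/
def myc {V : Type} (G : SimpleGraph V) : SimpleGraph (Option (V ⊕ V)) :=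
  SimpleGraph.fromRel (rel G)

def T : SimpleGraph (Fin 8) := SimpleGraph.fromRel fun a b =>
  (a, b) ∈ [(0, 5), (0, 7), (1, 7), (2, 4), (3, 7), (4, 7), (5, 6)]

instance : DecidableRel T.Adj := fun a b => by unfold T; infer_instance

instance : DecidableRel (rel T) := fun a b => by
  rcases a with _ | a | a <;> rcases b with _ | b | b <;> unfold rel <;> infer_instance

instance : DecidableRel (myc T).Adj := fun a b => by unfold myc; infer_instance

lemma low : 3 < chiNL T := lt_chi fun c h => by
  have : ∀ a0 a1 a2 a3 a4 a5 a6 a7 : Fin 3, ¬ IsNL T ![a0, a1, a2, a3, a4, a5, a6, a7] := by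
    simp only [isNL_iff]
    decide +kernel
  refine this (c 0) (c 1) (c 2) (c 3) (c 4) (c 5) (c 6) (c 7) ?_
  convert h using 1
  funext i
  fin_cases i <;> rfl

def col : Option (Fin 8 ⊕ Fin 8) → Fin 4
  | some (.inl a) => ![1, 3, 1, 1, 3, 0, 1, 2] a
  | some (.inr a) => ![1, 1, 2, 0, 0, 0, 2, 2] a
  | none => 3

theorem result : ∃ (V : Type) (_ : Fintype V) (G : SimpleGraph V), G.Connected ∧
    chiNL (myc G) ≤ chiNL G := by
  refine ⟨Fin 8, inferInstance, T, by decide +kernel, (chi_le (c := col) ?_).trans low⟩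
  rw [isNL_iff]
  decide +kernel

end Pool.Agent.Results.MP_03cbb9_co.Full
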